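import Mathlib

set_option autoImplicit false

namespace Pool.Agent.H380Z.Hol

open Filter Topology MeasureTheory

/-- Iterates converging to the Cantor function of ratio `1 / M`. -/
noncomputable def it (M : ℝ) : ℕ → ℝ → ℝ
  | 0 => fun x => if 0 < x then 1 else 0
  | n + 1 => fun x => (it M n (M * x) + it M n (M * x - (M - 1))) / 2

variable {M : ℝ}

lemma it_mono (hM : 3 ≤ M) (n : ℕ) : Monotone (it M n) := by
  induction n with
  | zero =>
    intro x y h
    simp only [it]
    split_ifs with h1 h2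
    · exact le_rfl
    · exact (h2 (h1.trans_le h)).elim
    · norm_num
    · exact le_rfl
  | succ n ih =>
    intro x y h
    simp only [it]
    have h1 : M * x ≤ M * y := mul_le_mul_of_nonneg_left h (by linarith)
    have h2 := ih h1
    have h3 := ih (sub_le_sub_right h1 (M - 1))
    linarith

lemma it_neg (hM : 3 ≤ M) (n : ℕ) : ∀ x, x ≤ 0 → it M n x = 0 := by
  induction n with
  | zero => intro x hx; simp [it, hx]
  | succ n ih =>
    intro x hx
    have h1 : M * x ≤ 0 := mul_nonpos_of_nonneg_of_nonpos (by linarith) hx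
    simp only [it]
    rw [ih _ h1, ih _ (by linarith)]
    norm_num

lemma it_one (hM : 3 ≤ M) (n : ℕ) : ∀ x, 1 ≤ x → it M n x = 1 := by
  induction n with
  | zero => intro x hx; simp [it, (by linarith : 0 < x)]
  | succ n ih =>
    intro x hx
    have h1 : M ≤ M * x := le_mul_of_one_le_right (by linarith) hx
    simp only [it]
    rw [ih _ (by linarith), ih _ (by linarith)]
    norm_num

lemma it_nonneg (hM : 3 ≤ M) (n : ℕ) (x : ℝ) : 0 ≤ it M n x := by
  rw [← it_neg hM n (min x 0) (min_le_right _ _)]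
  exact it_mono hM n (min_le_left _ _)

lemma it_le_one (hM : 3 ≤ M) (n : ℕ) (x : ℝ) : it M n x ≤ 1 := by
  rw [← it_one hM n (max x 1) (le_max_right _ _)]
  exact it_mono hM n (le_max_left _ _)

lemma it_anti (hM : 3 ≤ M) (n : ℕ) : ∀ x, it M (n + 1) x ≤ it M n x := by
  induction n with
  | zero =>
    intro x
    by_cases hx : 0 < x
    · refine (it_le_one hM _ _).trans ?_
      simp [it, hx]
    · rw [it_neg hM _ _ (not_lt.1 hx)]
      exact it_nonneg hM _ _
  | succ n ih =>
    intro x
    have h1 := ih (M * x)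
    have h2 := ih (M * x - (M - 1))
    rw [show it M (n + 1 + 1) x = (it M (n + 1) (M * x) + it M (n + 1) (M * x - (M - 1))) / 2
      from rfl, show it M (n + 1) x = (it M n (M * x) + it M n (M * x - (M - 1))) / 2 from rfl]
    linarith

/-- The Cantor function of ratio `1 / M`. -/
noncomputable def uu (M : ℝ) (x : ℝ) : ℝ := ⨅ n, it M n x

lemma it_tendsto (hM : 3 ≤ M) (x : ℝ) : Tendsto (fun n => it M n x) atTop (𝓝 (uu M x)) :=
  tendsto_atTop_ciInf (antitone_nat_of_succ_le fun n => it_anti hM n x)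
    ⟨0, by rintro _ ⟨n, rfl⟩; exact it_nonneg hM n x⟩

lemma uu_mono (hM : 3 ≤ M) : Monotone (uu M) := fun x y h =>
  le_of_tendsto_of_tendsto' (it_tendsto hM x) (it_tendsto hM y) fun n => it_mono hM n h

lemma uu_neg (hM : 3 ≤ M) {x : ℝ} (hx : x ≤ 0) : uu M x = 0 := by
  simp [uu, it_neg hM _ x hx]

lemma uu_one (hM : 3 ≤ M) {x : ℝ} (hx : 1 ≤ x) : uu M x = 1 := by
  simp [uu, it_one hM _ x hx]

lemma uu_nonneg (hM : 3 ≤ M) (x : ℝ) : 0 ≤ uu M x := by
  rw [← uu_neg hM (min_le_right x 0)]
  exact uu_mono hM (min_le_left _ _)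

lemma uu_le_one (hM : 3 ≤ M) (x : ℝ) : uu M x ≤ 1 := by
  rw [← uu_one hM (le_max_right x 1)]
  exact uu_mono hM (le_max_left _ _)

lemma uu_eq (hM : 3 ≤ M) (x : ℝ) : uu M x = (uu M (M * x) + uu M (M * x - (M - 1))) / 2 := by
  have h1 : Tendsto (fun n => it M (n + 1) x) atTop (𝓝 (uu M x)) :=
    (it_tendsto hM x).comp (tendsto_add_atTop_nat 1)
  have h2 : Tendsto (fun n => it M (n + 1) x) atTop
      (𝓝 ((uu M (M * x) + uu M (M * x - (M - 1))) / 2)) :=
    ((it_tendsto hM _).add (it_tendsto hM _)).div_const 2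
  exact tendsto_nhds_unique h1 h2

lemma uu_osc (hM : 3 ≤ M) (N : ℕ) : ∀ x t : ℝ, 0 ≤ t → t ≤ (1 / M) ^ N →
    uu M (x + t) - uu M x ≤ (1 / 2) ^ N := by
  have hM0 : 0 < M := by linarith
  induction N with
  | zero =>
    intro x t _ _
    have := uu_le_one hM (x + t)
    have := uu_nonneg hM x
    simp only [pow_zero]
    linarith
  | succ N ih =>
    intro x t h0 ht
    have h1 : M * t ≤ (1 / M) ^ N := by
      have := mul_le_mul_of_nonneg_left ht hM0.le
      rw [pow_succ] at this
      have e : M * ((1 / M) ^ N * (1 / M)) = (1 / M) ^ N := by field_simp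
      linarith
    have h2 : (1 / M) ^ N ≤ 1 := pow_le_one₀ (by positivity) (by rw [div_le_one hM0]; linarith)
    have h3 : 0 ≤ M * t := by positivity
    rw [uu_eq hM (x + t), uu_eq hM x, mul_add, pow_succ]
    have h4 := ih (M * x) (M * t) h3 h1
    have h5 := ih (M * x - (M - 1)) (M * t) h3 h1
    rw [show M * x - (M - 1) + M * t = M * x + M * t - (M - 1) by ring] at h5
    by_cases hx : 1 ≤ M * x
    · rw [uu_one hM hx, uu_one hM (by linarith : 1 ≤ M * x + M * t)]
      linarith
    · rw [uu_neg hM (by linarith : M * x + M * t - (M - 1) ≤ 0),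
        uu_neg hM (by linarith : M * x - (M - 1) ≤ 0)]
      linarith

lemma uu_hol (hM : 3 ≤ M) (x t : ℝ) (h0 : 0 ≤ t) (h1 : t ≤ 1) :
    uu M (x + t) - uu M x ≤ 2 * t ^ (Real.logb M 2) := by
  have hM0 : 0 < M := by linarith
  rcases h0.eq_or_lt with rfl | h0
  · simp only [add_zero, sub_self]
    positivity
  obtain ⟨N, h2, h3⟩ := exists_nat_pow_near_of_lt_one h0 h1 (by positivity : 0 < 1 / M)
    (by rw [div_lt_one hM0]; linarith)
  refine (uu_osc hM N x t h0.le h3).trans ?_
  have hα : 0 ≤ Real.logb M 2 := Real.logb_nonneg (by linarith) (by norm_num)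
  have h4 : ((1 / M) ^ (N + 1)) ^ (Real.logb M 2) ≤ t ^ (Real.logb M 2) :=
    Real.rpow_le_rpow (by positivity) h2.le hα
  have h5 : ((1 / M) ^ (N + 1)) ^ (Real.logb M 2) = (1 / 2) ^ (N + 1) := by
    rw [← Real.rpow_natCast, ← Real.rpow_mul (by positivity), mul_comm, Real.rpow_mul
      (by positivity), Real.div_rpow (by norm_num) hM0.le, Real.one_rpow,
      Real.rpow_logb hM0 (by linarith) (by norm_num), Real.rpow_natCast]
  rw [h5, pow_succ] at h4
  linarith

lemma uu_pos (hM : 3 ≤ M) {t : ℝ} (ht : 0 < t) : 0 < uu M t := by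
  have key : ∀ N : ℕ, ∀ s : ℝ, 1 ≤ M ^ N * s → 0 < uu M s := by
    intro N
    induction N with
    | zero =>
      intro s hs
      rw [uu_one hM (by simpa using hs)]
      norm_num
    | succ N ih =>
      intro s hs
      have h1 := ih (M * s) (by rw [← mul_assoc, ← pow_succ]; exact hs)
      have h2 := uu_nonneg hM (M * s - (M - 1))
      rw [uu_eq hM s]
      linarith
  obtain ⟨N, hN⟩ := pow_unbounded_of_one_lt (1 / t) (by linarith : 1 < M)
  apply key N
  rw [div_lt_iff₀ ht] at hN
  exact hN.le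

/-- The set where the Cantor function is not constant at scale `t`. -/
def bad (M t : ℝ) : Set ℝ := {x | uu M (x + t) ≠ uu M x}

lemma bad_vol (hM : 3 ≤ M) (N : ℕ) : ∀ t : ℝ, 0 ≤ t → t ≤ (1 / M) ^ N →
    volume (bad M t) ≤ ENNReal.ofReal (2 * (2 / M) ^ N) := by
  have hM0 : 0 < M := by linarith
  induction N with
  | zero =>
    intro t h0 h1
    have : bad M t ⊆ Set.Icc (-1) 1 := by
      intro x hx
      simp only [pow_zero] at h1
      by_contra hc
      rw [Set.mem_Icc, not_and_or, not_le, not_le] at hc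
      apply hx
      rcases hc with hc | hc
      · rw [uu_neg hM (by linarith), uu_neg hM (by linarith)]
      · rw [uu_one hM (by linarith), uu_one hM (by linarith)]
    refine (measure_mono this).trans ?_
    rw [Real.volume_Icc]
    norm_num
  | succ N ih =>
    intro t h0 ht
    have h1 : M * t ≤ (1 / M) ^ N := by
      have := mul_le_mul_of_nonneg_left ht hM0.le
      rw [pow_succ] at this
      have e : M * ((1 / M) ^ N * (1 / M)) = (1 / M) ^ N := by field_simp
      linarith
    have h2 := ih (M * t) (by positivity) h1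
    have hsub : bad M t ⊆ ((M * ·) ⁻¹' bad M (M * t)) ∪
        ((M * ·) ⁻¹' ((fun y => y + (-(M - 1))) ⁻¹' bad M (M * t))) := by
      intro x hx
      by_contra hc
      simp only [bad, Set.mem_union, Set.mem_preimage, Set.mem_ofPred_eq, not_or, not_not] at hc
      apply hx
      rw [uu_eq hM (x + t), uu_eq hM x, mul_add, hc.1,
        show M * x + M * t - (M - 1) = M * x + -(M - 1) + M * t by ring, hc.2]
      rfl
    refine (measure_mono hsub).trans ((measure_union_le _ _).trans ?_)
    rw [Real.volume_preimage_mul_left hM0.ne', Real.volume_preimage_mul_left hM0.ne',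
      measure_preimage_add_right, abs_of_pos (inv_pos.2 hM0)]
    have h3 : ENNReal.ofReal M⁻¹ * volume (bad M (M * t)) ≤
        ENNReal.ofReal (M⁻¹ * (2 * (2 / M) ^ N)) := by
      rw [ENNReal.ofReal_mul (by positivity)]
      gcongr
    refine (add_le_add h3 h3).trans ?_
    rw [← ENNReal.ofReal_add (by positivity) (by positivity)]
    apply le_of_eq
    congr 1
    rw [pow_succ]
    field_simp
    ring

lemma uu_cont (hM : 3 ≤ M) : Continuous (uu M) := by
  rw [Metric.continuous_iff]
  intro x ε hε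
  have hM0 : 0 < M := by linarith
  obtain ⟨N, hN⟩ := exists_pow_lt_of_lt_one hε (by norm_num : (1 / 2 : ℝ) < 1)
  refine ⟨(1 / M) ^ N, by positivity, fun y hy => ?_⟩
  rw [Real.dist_eq] at hy ⊢
  rcases le_total x y with h | h
  · have := uu_osc hM N x (y - x) (by linarith) (by linarith [le_abs_self (y - x)])
    rw [add_sub_cancel] at this
    rw [abs_of_nonneg (sub_nonneg.2 (uu_mono hM h))]
    linarith
  · have := uu_osc hM N y (x - y) (by linarith) (by linarith [neg_abs_le (y - x)])
    rw [add_sub_cancel] at this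
    rw [abs_of_nonpos (sub_nonpos.2 (uu_mono hM h))]
    linarith

/-- The periodic Cantor function. -/
noncomputable def cc (M : ℝ) (x : ℝ) : ℝ := ⌊x⌋ + uu M (Int.fract x)

lemma cc_add_int (x : ℝ) (k : ℤ) : cc M (x + k) = cc M x + k := by
  unfold cc
  rw [Int.floor_add_intCast, Int.fract_add_intCast]
  push_cast
  ring

lemma cc_three (hM : 3 ≤ M) {x : ℝ} (h0 : 0 ≤ x) (h3 : x ≤ 3) :
    cc M x = uu M x + uu M (x - 1) + uu M (x - 2) := by
  unfold cc Int.fract
  by_cases h1 : x < 1
  · rw [(Int.floor_eq_iff (z := 0)).2 ⟨by simpa using h0, by simpa using h1⟩,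
      uu_neg hM (by linarith : x - 1 ≤ 0), uu_neg hM (by linarith : x - 2 ≤ 0)]
    simp
  by_cases h2 : x < 2
  · rw [(Int.floor_eq_iff (z := 1)).2 ⟨by simpa using h1, by push_cast; linarith⟩,
      uu_one hM (by linarith : 1 ≤ x), uu_neg hM (by linarith : x - 2 ≤ 0)]
    simp
  by_cases h4 : x < 3
  · rw [(Int.floor_eq_iff (z := 2)).2 ⟨by simpa using h2, by push_cast; linarith⟩,
      uu_one hM (by linarith : 1 ≤ x), uu_one hM (by linarith : 1 ≤ x - 1)]
    push_cast
    ring
  · have : x = 3 := by linarith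
    subst this
    rw [(Int.floor_eq_iff (z := 3)).2 ⟨by simp, by push_cast; linarith⟩,
      uu_one hM (by linarith : (1:ℝ) ≤ 3), uu_one hM (by linarith : (1:ℝ) ≤ 3 - 1),
      uu_one hM (by linarith : (1:ℝ) ≤ 3 - 2), uu_neg hM (by simp)]
    push_cast
    ring

lemma cc_mono (hM : 3 ≤ M) : Monotone (cc M) := by
  intro x y h
  unfold cc
  rcases (Int.floor_mono h).eq_or_lt with e | e
  · have : Int.fract x ≤ Int.fract y := by
      unfold Int.fract
      rw [e]
      linarith
    have := uu_mono hM this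
    rw [e]
    linarith
  · have h1 : (⌊x⌋ : ℝ) + 1 ≤ ⌊y⌋ := by exact_mod_cast e
    have := uu_le_one hM (Int.fract x)
    have := uu_nonneg hM (Int.fract y)
    linarith

lemma cc_hol (hM : 3 ≤ M) (x t : ℝ) (h0 : 0 ≤ t) (h1 : t ≤ 1) :
    cc M (x + t) - cc M x ≤ 6 * t ^ (Real.logb M 2) := by
  have e1 : x = Int.fract x + ⌊x⌋ := by simp
  have e2 : x + t = (Int.fract x + t) + ⌊x⌋ := by
    conv_lhs => rw [e1]
    ring
  have f0 := Int.fract_nonneg x
  have f1 := Int.fract_lt_one x
  rw [e2, cc_add_int]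
  conv_lhs => rw [show cc M x = cc M (Int.fract x) + ⌊x⌋ by rw [← cc_add_int, ← e1]]
  rw [cc_three hM (by linarith) (by linarith), cc_three hM f0 (by linarith)]
  have a1 := uu_hol hM (Int.fract x) t h0 h1
  have a2 := uu_hol hM (Int.fract x - 1) t h0 h1
  have a3 := uu_hol hM (Int.fract x - 2) t h0 h1
  rw [show Int.fract x - 1 + t = Int.fract x + t - 1 by ring] at a2
  rw [show Int.fract x - 2 + t = Int.fract x + t - 2 by ring] at a3
  linarith

lemma cc_int (hM : 3 ≤ M) (k : ℤ) : cc M k = k := by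
  simp [cc, uu_neg hM]

lemma cc_strict (hM : 3 ≤ M) (k : ℤ) {x y : ℝ} (hx : x ≤ k) (hy : k < y) : cc M x < cc M y := by
  have h1 : cc M x ≤ k := by
    rw [← cc_int hM k]
    exact cc_mono hM hx
  have h2 : cc M (min (y - k) 1 + k) ≤ cc M y :=
    cc_mono hM (by linarith [min_le_left (y - k) 1])
  have h3 : 0 < min (y - k) 1 := lt_min (by linarith) one_pos
  have h4 := min_le_right (y - k) 1
  rw [cc_add_int, cc_three hM h3.le (by linarith)] at h2
  have := uu_pos hM h3
  have := uu_nonneg hM (min (y - k) 1 - 1)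
  have := uu_nonneg hM (min (y - k) 1 - 2)
  linarith

lemma cc_abs (hM : 3 ≤ M) (x : ℝ) : |cc M x| ≤ |x| + 1 := by
  unfold cc
  have := uu_le_one hM (Int.fract x)
  have := uu_nonneg hM (Int.fract x)
  have := Int.floor_le x
  have := Int.lt_floor_add_one x
  have := le_abs_self x
  have := neg_abs_le x
  rw [abs_le]
  constructor <;> linarith

end Pool.Agent.H380Z.Hol
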