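import Mathlib

set_option autoImplicit false

namespace Pool.Agent.H380Z.Hol

open Filter Topology MeasureTheory AddCircle

lemma coeff_shift (g : C(AddCircle (1 : ℝ), ℂ)) (δ : AddCircle (1 : ℝ)) (n : ℤ) :
    fourierCoeff (fun x => g (x + δ) - g x) n = (fourier n δ - 1) * fourierCoeff g n := by
  have hi : ∀ G : AddCircle (1 : ℝ) → ℂ, Continuous G → Integrable G haarAddCircle :=
    fun G hG => hG.integrable_of_hasCompactSupport (HasCompactSupport.of_compactSpace G)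
  unfold fourierCoeff
  simp only [smul_eq_mul, mul_sub]
  rw [integral_sub (hi _ (by fun_prop)) (hi _ (by fun_prop)), sub_mul, one_mul]
  congr 1
  rw [← integral_add_right_eq_self (fun t => fourier (-n) t * g t) δ, ← integral_const_mul]
  apply integral_congr_ae
  filter_upwards with t
  rw [← mul_assoc]
  congr 1
  simp only [fourier_apply, smul_add, toCircle_add, Circle.coe_mul, neg_smul, toCircle_neg,
    Circle.coe_inv]
  have := Circle.coe_ne_zero (toCircle (n • δ))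
  field_simp

lemma parseval_shift (g : C(AddCircle (1 : ℝ), ℂ)) (δ : ℝ) :
    HasSum (fun n : ℤ => ‖fourier n (δ : AddCircle (1 : ℝ)) - 1‖ ^ 2 * ‖fourierCoeff g n‖ ^ 2)
      (∫ x in (0 : ℝ)..1, ‖g ((x + δ : ℝ) : AddCircle (1 : ℝ)) - g x‖ ^ 2) := by
  let G : C(AddCircle (1 : ℝ), ℂ) := ⟨fun x => g (x + δ) - g x, by fun_prop⟩
  have h := hasSum_sq_fourierCoeff (ContinuousMap.toLp (E := ℂ) 2 haarAddCircle ℂ G)
  simp only [fourierCoeff_toLp] at h
  have e1 : ∀ n : ℤ, ‖fourierCoeff G n‖ ^ 2 =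
      ‖fourier n (δ : AddCircle (1 : ℝ)) - 1‖ ^ 2 * ‖fourierCoeff g n‖ ^ 2 := by
    intro n
    rw [← mul_pow, ← norm_mul, ← coeff_shift]
    rfl
  simp only [e1] at h
  convert h using 1
  have e2 : ∫ t : AddCircle (1 : ℝ), ‖(ContinuousMap.toLp (E := ℂ) 2 haarAddCircle ℂ G) t‖ ^ 2
      ∂haarAddCircle = ∫ t : AddCircle (1 : ℝ), ‖G t‖ ^ 2 ∂haarAddCircle := by
    apply integral_congr_ae
    filter_upwards [ContinuousMap.coeFn_toLp (p := 2) (𝕜 := ℂ) haarAddCircle G] with t ht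
    rw [ht]
  rw [e2, AddCircle.integral_haarAddCircle, ← AddCircle.intervalIntegral_preimage 1 0]
  simp [G]

lemma fourier_lower (n : ℤ) (δ : ℝ) (h : |n * δ| ≤ 1 / 2) :
    4 * |n * δ| ≤ ‖fourier n (δ : AddCircle (1 : ℝ)) - 1‖ := by
  rw [fourier_coe_apply]
  have e : 2 * (Real.pi : ℂ) * Complex.I * n * δ / (1 : ℝ)
      = Complex.I * ((2 * Real.pi * (n * δ) : ℝ) : ℂ) := by
    push_cast
    ring
  rw [e, Complex.norm_exp_I_mul_ofReal_sub_one, Real.norm_eq_abs, abs_mul 2]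
  have hp := Real.pi_pos
  have key : ∀ s : ℝ, 0 ≤ s → s ≤ 1 / 2 → 2 * s ≤ Real.sin (Real.pi * s) := by
    intro s h0 h1
    have := Real.mul_le_sin (x := Real.pi * s) (by positivity) (by nlinarith)
    have e2 : 2 / Real.pi * (Real.pi * s) = 2 * s := by field_simp
    linarith
  have h2 := key _ (abs_nonneg (n * δ)) h
  have e3 : 2 * Real.pi * (n * δ) / 2 = Real.pi * (n * δ) := by ring
  rw [e3, abs_two]
  rcases abs_cases (n * δ) with ⟨h3, _⟩ | ⟨h3, _⟩
  · rw [h3] at h2 ⊢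
    linarith [le_abs_self (Real.sin (Real.pi * (n * δ)))]
  · rw [h3] at h2 ⊢
    rw [mul_neg Real.pi, Real.sin_neg] at h2
    linarith [neg_abs_le (Real.sin (Real.pi * (n * δ)))]

lemma rpow_split {a t p : ℝ} (ha : 0 ≤ a) (ht : 0 < t) (hp0 : 0 < p) (hp : p ≤ 2) :
    a ^ p ≤ t ^ p + t ^ (p - 2) * a ^ 2 := by
  have h1 : 0 ≤ t ^ p := by positivity
  have h2 : 0 ≤ t ^ (p - 2) * a ^ 2 := by positivity
  rcases le_total a t with h | h
  · have := Real.rpow_le_rpow ha h hp0.le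
    linarith
  · have ha' : 0 < a := ht.trans_le h
    have e : a ^ p = a ^ (p - 2) * a ^ 2 := by
      rw [← Real.rpow_natCast, ← Real.rpow_add ha']
      simp
    have h3 : a ^ (p - 2) ≤ t ^ (p - 2) := Real.rpow_le_rpow_of_nonpos ht h (by linarith)
    have := mul_le_mul_of_nonneg_right h3 (sq_nonneg a)
    linarith

theorem summable_of_modulus (g : C(AddCircle (1 : ℝ), ℂ)) (M K p : ℝ) (hM : 3 ≤ M) (hp1 : 1 < p)
    (hp2 : p ≤ 2) (hMp : 4 < M ^ (p - 1))
    (hE : ∀ N : ℕ, ∫ x in (0 : ℝ)..1,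
      ‖g ((x + (1 / M) ^ (N + 1) / 2 : ℝ) : AddCircle (1 : ℝ)) - g x‖ ^ 2 ≤ K * (4 / M) ^ N) :
    Summable fun n : ℤ => ‖fourierCoeff g n‖ ^ p := by
  have hM0 : 0 < M := by linarith
  set a : ℤ → ℝ := fun n => ‖fourierCoeff g n‖ with ha
  set δ : ℕ → ℝ := fun N => (1 / M) ^ (N + 1) / 2 with hδ
  let F : ℕ × ℤ → ℝ := fun z => (M ^ (2 - p)) ^ (z.1 + 1) * M ^ 2 *
    (‖fourier z.2 (δ z.1 : AddCircle (1 : ℝ)) - 1‖ ^ 2 * a z.2 ^ 2)
  have hF0 : 0 ≤ F := fun z => by positivity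
  have hFs : Summable F := by
    rw [summable_prod_of_nonneg hF0]
    refine ⟨fun N => ?_, ?_⟩
    · simp only [F, ha]
      exact (parseval_shift g (δ N)).summable.mul_left ((M ^ (2 - p)) ^ (N + 1) * M ^ 2)
    have hρ : M ^ (2 - p) * (4 / M) < 1 := by
      have e : M ^ (2 - p) = M / M ^ (p - 1) := by
        rw [eq_div_iff (by positivity), ← Real.rpow_add hM0]
        simp only [show 2 - p + (p - 1) = 1 by ring, Real.rpow_one]
      rw [e]
      have : M / M ^ (p - 1) * (4 / M) = 4 / M ^ (p - 1) := by field_simp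
      rw [this, div_lt_one (by positivity)]
      exact hMp
    refine Summable.of_nonneg_of_le (fun N => tsum_nonneg fun n => hF0 _) (fun N => ?_)
      ((summable_geometric_of_lt_one (by positivity) hρ).mul_left (M ^ (2 - p) * M ^ 2 * K))
    have h1 := ((parseval_shift g (δ N)).mul_left ((M ^ (2 - p)) ^ (N + 1) * M ^ 2)).tsum_eq
    simp only [F, ha]
    rw [h1]
    refine (mul_le_mul_of_nonneg_left (hE N) (by positivity)).trans (le_of_eq ?_)
    rw [mul_pow, pow_succ]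
    ring
  have hlog : ∀ n : ℤ, ∃ N : ℕ, n ≠ 0 → M ^ N ≤ |(n : ℝ)| ∧ |(n : ℝ)| < M ^ (N + 1) := by
    intro n
    by_cases hn : n = 0
    · exact ⟨0, fun h => (h hn).elim⟩
    · have : (1 : ℝ) ≤ |(n : ℝ)| := by exact_mod_cast Int.one_le_abs hn
      obtain ⟨N, hN⟩ := exists_nat_pow_near this (by linarith : 1 < M)
      exact ⟨N, fun _ => hN⟩
  choose L hL using hlog
  have hG : Summable fun n : ℤ => F (L n, n) :=
    hFs.comp_injective (i := fun n : ℤ => (L n, n)) fun a b h => congrArg Prod.snd h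
  refine Summable.of_norm_bounded_eventually ((Real.summable_abs_int_rpow hp1).add hG) ?_
  filter_upwards [Filter.eventually_cofinite_ne (0 : ℤ)] with n hn
  obtain ⟨h1, h2⟩ := hL n hn
  have hn0 : 0 < |(n : ℝ)| := abs_pos.2 (by exact_mod_cast hn)
  rw [Real.norm_of_nonneg (by positivity)]
  refine (rpow_split (norm_nonneg _) (inv_pos.2 hn0) (by linarith) hp2).trans ?_
  rw [Real.inv_rpow hn0.le, ← Real.rpow_neg hn0.le, Real.inv_rpow hn0.le, ← Real.rpow_neg hn0.le,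
    neg_sub]
  apply add_le_add le_rfl
  have hδ0 : 0 < δ (L n) := by positivity
  have e1 : |n * δ (L n)| = |(n : ℝ)| / M ^ (L n + 1) / 2 := by
    rw [abs_mul, abs_of_pos hδ0]
    simp only [hδ, one_div, inv_pow]
    ring
  have h3 : |n * δ (L n)| ≤ 1 / 2 := by
    rw [e1]
    have : |(n : ℝ)| / M ^ (L n + 1) ≤ 1 := by
      rw [div_le_one (by positivity)]
      exact h2.le
    linarith
  have h4 := fourier_lower n _ h3
  have h5 : 1 / M ≤ |(n : ℝ)| / M ^ (L n + 1) := by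
    rw [div_le_div_iff₀ hM0 (by positivity), pow_succ]
    nlinarith
  have h6 : 1 ≤ M * ‖fourier n (δ (L n) : AddCircle (1 : ℝ)) - 1‖ := by
    have : 1 / M ≤ ‖fourier n (δ (L n) : AddCircle (1 : ℝ)) - 1‖ := by
      have : 0 < 1 / M := by positivity
      linarith
    rw [div_le_iff₀ hM0] at this
    linarith
  have h7 : |(n : ℝ)| ^ (2 - p) ≤ (M ^ (2 - p)) ^ (L n + 1) := by
    rw [← Real.rpow_natCast, ← Real.rpow_mul hM0.le, mul_comm, Real.rpow_mul hM0.le,
      Real.rpow_natCast]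
    exact Real.rpow_le_rpow hn0.le h2.le (by linarith)
  simp only [F]
  have h8 : 1 ≤ M ^ 2 * ‖fourier n (δ (L n) : AddCircle (1 : ℝ)) - 1‖ ^ 2 := by
    rw [← mul_pow]
    exact one_le_pow₀ h6
  calc |(n : ℝ)| ^ (2 - p) * ‖fourierCoeff g n‖ ^ 2
      ≤ (M ^ (2 - p)) ^ (L n + 1) * (1 * a n ^ 2) := by
        rw [one_mul]
        exact mul_le_mul_of_nonneg_right h7 (sq_nonneg _)
    _ ≤ (M ^ (2 - p)) ^ (L n + 1) *
        ((M ^ 2 * ‖fourier n (δ (L n) : AddCircle (1 : ℝ)) - 1‖ ^ 2) * a n ^ 2) := by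
        gcongr
    _ = _ := by ring

end Pool.Agent.H380Z.Hol
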