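import Pool.Agent.H380Z.Hol.Cantor

set_option autoImplicit false

namespace Pool.Agent.H380Z.Hol

open Filter Topology MeasureTheory

lemma exists_weights (τ : ℕ → ℝ) (hτ : ∀ J, 0 < τ J) : ∃ η : ℕ → ℝ, (∀ j, 0 < η j) ∧ HasSum η 1 ∧
    ∀ J, ∑' j, η (j + (J + 1)) ≤ τ J := by
  let σ : ℕ → ℝ := fun n => Nat.rec (min 1 (τ 0)) (fun k s => min s (τ (k + 1))) n
  have hσ0 : ∀ n, 0 < σ n := by
    intro n
    induction n with
    | zero => exact lt_min one_pos (hτ 0)
    | succ k ih => exact lt_min ih (hτ _)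
  have hσa : Antitone σ := antitone_nat_of_succ_le fun n => min_le_left _ _
  have hσ1 : ∀ n, σ n ≤ τ n := by
    intro n
    cases n with
    | zero => exact min_le_right _ _
    | succ k => exact min_le_right _ _
  have hσ2 : ∀ n, σ n ≤ 1 := fun n => (hσa (Nat.zero_le n)).trans (min_le_left _ _)
  let β : ℕ → ℝ := fun j => σ j / 2 / 2 / 2 ^ j
  have hβ0 : ∀ j, 0 < β j := fun j => by have := hσ0 j; positivity
  have hβle : ∀ J j, β (j + J) ≤ σ J / 2 / 2 / 2 ^ j := by
    intro J j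
    have h1 := hσa (Nat.le_add_left J j)
    have h2 : (2 : ℝ) ^ j ≤ 2 ^ (j + J) := pow_le_pow_right₀ (by norm_num) (by omega)
    have := hσ0 J
    simp only [β]
    gcongr
  have hβs : Summable β := Summable.of_nonneg_of_le (fun j => (hβ0 j).le)
    (fun j => by simpa using hβle 0 j) (summable_geometric_two' (σ 0 / 2))
  have hβt : ∀ J, ∑' j, β (j + J) ≤ σ J / 2 := by
    intro J
    rw [← tsum_geometric_two' (σ J / 2)]
    exact ((summable_nat_add_iff J).2 hβs).tsum_le_tsum (hβle J) (summable_geometric_two' _)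
  have h0 := hβt 0
  simp only [add_zero] at h0
  refine ⟨fun j => Nat.casesOn j (1 - ∑' j, β j) β, ?_, ?_, ?_⟩
  · intro j
    cases j with
    | zero =>
      show 0 < 1 - ∑' j, β j
      linarith [hσ2 0]
    | succ k => exact hβ0 k
  · rw [← hasSum_nat_add_iff' 1]
    simpa using hβs.hasSum
  · intro J
    have : ∑' j, β (j + J) ≤ τ J := by linarith [hβt J, hσ1 J, hσ0 J]
    exact this

/-- An enumeration of the rationals in `[0,1)`. -/
noncomputable def qq (j : ℕ) : ℝ := Int.fract ((Denumerable.ofNat ℚ j : ℚ) : ℝ)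

lemma qq_nonneg (j : ℕ) : 0 ≤ qq j := Int.fract_nonneg _

lemma qq_lt (j : ℕ) : qq j < 1 := Int.fract_lt_one _

lemma qq_dense {a b : ℝ} (h0 : 0 ≤ a) (hab : a < b) (h1 : b ≤ 1) : ∃ j, a < qq j ∧ qq j < b := by
  obtain ⟨q, h2, h3⟩ := exists_rat_btwn hab
  obtain ⟨j, hj⟩ : ∃ j, Denumerable.ofNat ℚ j = q := ⟨_, Denumerable.ofNat_encode q⟩
  refine ⟨j, ?_⟩
  unfold qq
  rw [hj, Int.fract_eq_self.2 ⟨by linarith, by linarith⟩]
  exact ⟨h2, h3⟩

variable {M : ℝ} {η : ℕ → ℝ}

/-- The lift of the homeomorphism. -/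
noncomputable def HH (M : ℝ) (η : ℕ → ℝ) (x : ℝ) : ℝ := ∑' j, η j * cc M (x + qq j)

lemma HH_summable (hM : 3 ≤ M) (h0 : ∀ j, 0 < η j) (h1 : HasSum η 1) (x : ℝ) :
    Summable fun j => η j * cc M (x + qq j) := by
  refine Summable.of_norm_bounded (h1.summable.mul_right (|x| + 2)) fun j => ?_
  rw [Real.norm_eq_abs, abs_mul, abs_of_pos (h0 j)]
  apply mul_le_mul_of_nonneg_left _ (h0 j).le
  have := cc_abs hM (x + qq j)
  have h2 := abs_add_le x (qq j)
  rw [abs_of_nonneg (qq_nonneg j)] at h2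
  linarith [qq_lt j]

lemma HH_sub (hM : 3 ≤ M) (h0 : ∀ j, 0 < η j) (h1 : HasSum η 1) (x y : ℝ) :
    HasSum (fun j => η j * (cc M (y + qq j) - cc M (x + qq j))) (HH M η y - HH M η x) := by
  have := (HH_summable hM h0 h1 y).hasSum.sub (HH_summable hM h0 h1 x).hasSum
  simp only [mul_sub]
  exact this

lemma HH_add_int (hM : 3 ≤ M) (h0 : ∀ j, 0 < η j) (h1 : HasSum η 1) (x : ℝ) (k : ℤ) :
    HH M η (x + k) = HH M η x + k := by
  have h2 := HH_sub hM h0 h1 x (x + k)
  have h3 : (fun j => η j * (cc M (x + k + qq j) - cc M (x + qq j))) = fun j => η j * k := by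
    funext j
    rw [show x + k + qq j = x + qq j + k by ring, cc_add_int]
    ring
  rw [h3] at h2
  have := h2.unique (h1.mul_right (k : ℝ))
  linarith

lemma HH_strict (hM : 3 ≤ M) (h0 : ∀ j, 0 < η j) (h1 : HasSum η 1) : StrictMono (HH M η) := by
  intro x y hxy
  have h2 := HH_sub hM h0 h1 x y
  have f0 := Int.floor_le x
  have f1 := Int.lt_floor_add_one x
  obtain ⟨j, h3, h4⟩ := qq_dense (a := max (⌊x⌋ + 1 - y) 0) (b := ⌊x⌋ + 1 - x) (le_max_right _ _)
    (max_lt (by linarith) (by linarith)) (by linarith)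
  have h5 : cc M (x + qq j) < cc M (y + qq j) := by
    apply cc_strict hM (⌊x⌋ + 1)
    · push_cast
      linarith
    · push_cast
      linarith [le_max_left (⌊x⌋ + 1 - y) 0]
  have h6 := hasSum_lt (i := j) (f := fun _ => (0 : ℝ))
    (fun i => mul_nonneg (h0 i).le (sub_nonneg.2 (cc_mono hM (by linarith : x + qq i ≤ y + qq i))))
    (mul_pos (h0 j) (sub_pos.2 h5)) hasSum_zero h2
  linarith

lemma HH_hol (hM : 3 ≤ M) (h0 : ∀ j, 0 < η j) (h1 : HasSum η 1) (x t : ℝ) (ht0 : 0 ≤ t)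
    (ht1 : t ≤ 1) : HH M η (x + t) - HH M η x ≤ 6 * t ^ (Real.logb M 2) := by
  have h2 := HH_sub hM h0 h1 x (x + t)
  have h3 := h1.mul_right (6 * t ^ (Real.logb M 2))
  rw [one_mul] at h3
  refine hasSum_le (fun j => ?_) h2 h3
  apply mul_le_mul_of_nonneg_left _ (h0 j).le
  rw [show x + t + qq j = x + qq j + t by ring]
  exact cc_hol hM _ _ ht0 ht1

lemma HH_hol' (hM : 3 ≤ M) (h0 : ∀ j, 0 < η j) (h1 : HasSum η 1) (x y : ℝ) (h : |x - y| ≤ 1) :
    |HH M η x - HH M η y| ≤ 6 * |x - y| ^ (Real.logb M 2) := by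
  rcases le_total x y with hxy | hxy
  · rw [abs_sub_comm, abs_sub_comm x y, abs_of_nonneg (sub_nonneg.2 hxy),
      abs_of_nonneg (sub_nonneg.2 ((HH_strict hM h0 h1).monotone hxy))]
    have := HH_hol hM h0 h1 x (y - x) (by linarith) (by linarith [neg_abs_le (x - y)])
    rwa [add_sub_cancel] at this
  · rw [abs_of_nonneg (sub_nonneg.2 hxy),
      abs_of_nonneg (sub_nonneg.2 ((HH_strict hM h0 h1).monotone hxy))]
    have := HH_hol hM h0 h1 y (x - y) (by linarith) (by linarith [le_abs_self (x - y)])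
    rwa [add_sub_cancel] at this

lemma HH_cont (hM : 3 ≤ M) (h0 : ∀ j, 0 < η j) (h1 : HasSum η 1) : Continuous (HH M η) := by
  rw [continuous_iff_continuousAt]
  intro x
  have hα : 0 < Real.logb M 2 := Real.logb_pos (by linarith) (by norm_num)
  rw [ContinuousAt, tendsto_iff_dist_tendsto_zero]
  have hc : Continuous (fun y : ℝ => 6 * |y - x| ^ (Real.logb M 2)) := by
    apply Continuous.mul continuous_const
    exact Continuous.rpow_const (by fun_prop) fun _ => Or.inr hα.le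
  have h2 : Tendsto (fun y : ℝ => 6 * |y - x| ^ (Real.logb M 2)) (𝓝 x) (𝓝 0) := by
    have := hc.tendsto x
    simpa [Real.zero_rpow hα.ne'] using this
  refine squeeze_zero' (Eventually.of_forall fun _ => dist_nonneg) ?_ h2
  filter_upwards [Metric.closedBall_mem_nhds x one_pos] with y hy
  rw [Real.dist_eq]
  exact HH_hol' hM h0 h1 y x (by simpa [Real.dist_eq] using hy)

lemma HH_tail (hM : 3 ≤ M) (h0 : ∀ j, 0 < η j) (h1 : HasSum η 1) (x t : ℝ)
    (ht1 : t ≤ 1) (J : ℕ) (h : ∀ j < J + 1, cc M (x + qq j + t) = cc M (x + qq j)) :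
    HH M η (x + t) - HH M η x ≤ ∑' j, η (j + (J + 1)) := by
  have h2 := HH_sub hM h0 h1 x (x + t)
  rw [← hasSum_nat_add_iff' (J + 1)] at h2
  have h3 : ∑ i ∈ Finset.range (J + 1), η i * (cc M (x + t + qq i) - cc M (x + qq i)) = 0 := by
    apply Finset.sum_eq_zero
    intro i hi
    rw [show x + t + qq i = x + qq i + t by ring, h i (Finset.mem_range.1 hi)]
    simp
  rw [h3, sub_zero] at h2
  refine hasSum_le (fun j => ?_) h2 ((summable_nat_add_iff (J + 1)).2 h1.summable).hasSum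
  apply mul_le_of_le_one_right (h0 _).le
  have h4 := cc_mono hM (by push_cast; linarith :
    x + t + qq (j + (J + 1)) ≤ x + qq (j + (J + 1)) + (1 : ℤ))
  rw [cc_add_int] at h4
  push_cast at h4
  linarith

lemma exists_homeo (H : ℝ → ℝ) (hc : Continuous H) (hs : StrictMono H)
    (hp : ∀ (x : ℝ) (k : ℤ), H (x + k) = H x + k) :
    ∃ h : AddCircle (1 : ℝ) ≃ₜ AddCircle (1 : ℝ), ∀ x : ℝ, h x = (H x : ℝ) := by
  have hper : Function.Periodic (fun x : ℝ => ((H x : ℝ) : AddCircle (1 : ℝ))) 1 := by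
    intro x
    have := hp x 1
    simp only [Int.cast_one] at this
    simp only [this]
    exact AddCircle.coe_add_period 1 (H x)
  let h0 : AddCircle (1 : ℝ) → AddCircle (1 : ℝ) := hper.lift
  have h0c : ∀ x : ℝ, h0 x = (H x : ℝ) := fun x => rfl
  have hcont : Continuous h0 := by
    rw [(QuotientAddGroup.isQuotientMap_mk _).continuous_iff]
    exact (AddCircle.continuous_mk' 1).comp hc
  have hinj : Function.Injective h0 := by
    intro a b hab
    induction a using QuotientAddGroup.induction_on with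
    | H x =>
    induction b using QuotientAddGroup.induction_on with
    | H y =>
    rw [h0c, h0c, QuotientAddGroup.eq] at hab
    obtain ⟨k, hk⟩ := hab
    simp only [zsmul_eq_mul, mul_one] at hk
    have h1 : H (x + k) = H y := by rw [hp]; linarith
    have h2 := hs.injective h1
    rw [QuotientAddGroup.eq]
    exact ⟨k, by simp only [zsmul_eq_mul, mul_one]; linarith⟩
  have hsurj : Function.Surjective h0 := by
    intro b
    induction b using QuotientAddGroup.induction_on with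
    | H y =>
    have h1 : y ∈ Set.Icc (H (0 + (⌊y - H 0⌋ : ℤ))) (H (0 + (⌈y - H 0⌉ : ℤ))) := by
      rw [hp, hp]
      constructor
      · linarith [Int.floor_le (y - H 0)]
      · linarith [Int.le_ceil (y - H 0)]
    obtain ⟨x, hx⟩ := mem_range_of_exists_le_of_exists_ge hc ⟨_, h1.1⟩ ⟨_, h1.2⟩
    exact ⟨x, by rw [h0c, hx]⟩
  exact ⟨Continuous.homeoOfEquivCompactToT2 (f := Equiv.ofBijective h0 ⟨hinj, hsurj⟩) hcont, h0c⟩

lemma dist_coe_le (x y : ℝ) : dist (x : AddCircle (1 : ℝ)) (y : AddCircle (1 : ℝ)) ≤ |x - y| := by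
  rw [dist_eq_norm, ← AddCircle.coe_sub]
  exact QuotientAddGroup.norm_mk_le_norm

lemma exists_rep (a b : AddCircle (1 : ℝ)) : ∃ x y : ℝ, a = x ∧ b = y ∧ |x - y| = dist a b ∧
    |x - y| ≤ 1 := by
  induction a using QuotientAddGroup.induction_on with
  | H x =>
  induction b using QuotientAddGroup.induction_on with
  | H y =>
  refine ⟨x, y + round (x - y), rfl, ?_, ?_, ?_⟩
  · rw [QuotientAddGroup.eq]
    exact ⟨round (x - y), by simp⟩
  · rw [dist_eq_norm, ← AddCircle.coe_sub, UnitAddCircle.norm_eq]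
    congr 1
    ring
  · have := abs_sub_round (x - y)
    rw [show x - (y + round (x - y)) = x - y - round (x - y) by ring]
    linarith

end Pool.Agent.H380Z.Hol
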