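import Pool.Agent.H380Z.Hol.Homeo
import Pool.Agent.H380Z.Hol.Four

set_option autoImplicit false

namespace Pool.Agent.H380Z.Hol

open Filter Topology MeasureTheory AddCircle

variable {M : ℝ}

/-- The exceptional set at scale `t`. -/
def badU (M t : ℝ) (J : ℕ) : Set ℝ :=
  ⋃ j ∈ Finset.range (J + 1), ⋃ k ∈ Finset.range 3, (fun x => x + (qq j - (k : ℝ))) ⁻¹' bad M t

lemma badU_meas (hM : 3 ≤ M) (t : ℝ) (J : ℕ) : MeasurableSet (badU M t J) := by
  have h : IsOpen (bad M t) := isOpen_ne_fun ((uu_cont hM).comp (by fun_prop)) (uu_cont hM)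
  apply IsOpen.measurableSet
  exact isOpen_biUnion fun j _ => isOpen_biUnion fun k _ => h.preimage (by fun_prop)

lemma badU_vol (hM : 3 ≤ M) (t : ℝ) (J N : ℕ) (h0 : 0 ≤ t) (h1 : t ≤ (1 / M) ^ N) :
    volume (badU M t J) ≤ ENNReal.ofReal ((J + 1) * (3 * (2 * (2 / M) ^ N))) := by
  have hM0 : 0 < M := by linarith
  have hb := bad_vol hM N t h0 h1
  refine (measure_biUnion_finset_le _ _).trans ?_
  have h2 : ∀ j ∈ Finset.range (J + 1), volume (⋃ k ∈ Finset.range 3,
      (fun x => x + (qq j - (k : ℝ))) ⁻¹' bad M t) ≤ ENNReal.ofReal (3 * (2 * (2 / M) ^ N)) := by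
    intro j _
    refine (measure_biUnion_finset_le _ _).trans ?_
    simp only [measure_preimage_add_right, Finset.sum_const, Finset.card_range, nsmul_eq_mul]
    rw [ENNReal.ofReal_mul (by norm_num)]
    gcongr
    simp
  refine (Finset.sum_le_sum h2).trans (le_of_eq ?_)
  simp only [Finset.sum_const, Finset.card_range, nsmul_eq_mul]
  rw [ENNReal.ofReal_mul (p := (J : ℝ) + 1) (by positivity)]
  congr 1
  rw [← Nat.cast_succ, ENNReal.ofReal_natCast]

lemma not_badU (hM : 3 ≤ M) (t : ℝ) (J : ℕ) (h0 : 0 ≤ t) (h1 : t ≤ 1) (x : ℝ) (hx0 : 0 ≤ x)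
    (hx1 : x ≤ 1) (hx : x ∉ badU M t J) : ∀ j < J + 1, cc M (x + qq j + t) = cc M (x + qq j) := by
  intro j hj
  have a := qq_nonneg j
  have b := qq_lt j
  have key : ∀ k : ℕ, k < 3 → uu M (x + qq j + t - k) = uu M (x + qq j - k) := by
    intro k hk
    by_contra hc
    apply hx
    simp only [badU, Set.mem_iUnion, Finset.mem_range]
    refine ⟨j, hj, k, hk, ?_⟩
    show uu M (x + (qq j - k) + t) ≠ uu M (x + (qq j - k))
    rw [show x + (qq j - k) + t = x + qq j + t - k by ring,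
      show x + (qq j - k) = x + qq j - k by ring]
    exact hc
  rw [cc_three hM (by linarith) (by linarith), cc_three hM (by linarith) (by linarith)]
  have k0 := key 0 (by norm_num)
  have k1 := key 1 (by norm_num)
  have k2 := key 2 (by norm_num)
  simp only [Nat.cast_zero, sub_zero, Nat.cast_one, Nat.cast_ofNat] at k0 k1 k2
  rw [k0, k1, k2]

theorem main_le_two (f : C(AddCircle (1 : ℝ), ℝ)) (p : ℝ) (hp : 1 < p) (hp2 : p ≤ 2) :
    ∃ h : AddCircle (1 : ℝ) ≃ₜ AddCircle (1 : ℝ),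
      (∃ C α : ℝ, 0 < α ∧ α ≤ 1 ∧ ∀ x y, dist (h x) (h y) ≤ C * dist x y ^ α) ∧
      Summable fun n : ℤ => ‖fourierCoeff (fun x => ((f (h x) : ℝ) : ℂ)) n‖ ^ p := by
  obtain ⟨M, hM4, hMp⟩ : ∃ M : ℝ, 4 ≤ M ∧ 4 < M ^ (p - 1) := by
    have h1 := (tendsto_rpow_atTop (by linarith : 0 < p - 1)).eventually_gt_atTop 4
    exact ((eventually_ge_atTop 4).and h1).exists
  have hM : 3 ≤ M := by linarith
  have hM0 : 0 < M := by linarith
  have huc : UniformContinuous f := CompactSpace.uniformContinuous_of_continuous f.continuous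
  rw [Metric.uniformContinuous_iff] at huc
  choose τ hτ0 hτ using fun J : ℕ => huc ((1 / M) ^ J) (by positivity)
  obtain ⟨η, hη0, hη1, hη⟩ := exists_weights (fun J => τ J / 2) fun J => half_pos (hτ0 J)
  obtain ⟨h, hh⟩ := exists_homeo (HH M η) (HH_cont hM hη0 hη1) (HH_strict hM hη0 hη1)
    (HH_add_int hM hη0 hη1)
  refine ⟨h, ⟨6, Real.logb M 2, Real.logb_pos (by linarith) (by norm_num), ?_, ?_⟩, ?_⟩
  · rw [Real.logb_le_iff_le_rpow (by linarith) (by norm_num), Real.rpow_one]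
    linarith
  · intro a b
    obtain ⟨x, y, rfl, rfl, h1, h2⟩ := exists_rep a b
    rw [hh, hh, ← h1]
    exact (dist_coe_le _ _).trans (HH_hol' hM hη0 hη1 x y h2)
  let g : C(AddCircle (1 : ℝ), ℂ) := ⟨fun x => ((f (h x) : ℝ) : ℂ), by fun_prop⟩
  refine summable_of_modulus g M (1 + 4 * ‖f‖ ^ 2 * 6) p hM hp hp2 hMp fun N => ?_
  set t : ℝ := (1 / M) ^ (N + 1) / 2 with ht
  have hM1 : 1 / M ≤ 1 := by rw [div_le_one hM0]; linarith
  have ht0 : 0 ≤ t := by positivity
  have htN : t ≤ (1 / M) ^ N := by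
    have h1 : (1 / M) ^ (N + 1) ≤ (1 / M) ^ N := pow_le_pow_of_le_one (by positivity) hM1 (by omega)
    have h2 : 0 ≤ (1 / M) ^ (N + 1) := by positivity
    linarith
  have hN1 : (1 / M) ^ N ≤ 1 := pow_le_one₀ (by positivity) hM1
  have ht1 : t ≤ 1 := htN.trans hN1
  have hvol := badU_vol hM t N N ht0 htN
  have hfin : volume (badU M t N) ≠ ⊤ := ne_top_of_le_ne_top ENNReal.ofReal_ne_top hvol
  have hms := badU_meas hM t N
  have hpt : ∀ x ∈ Set.Icc (0 : ℝ) 1, ‖g ((x + t : ℝ) : AddCircle (1 : ℝ)) - g x‖ ^ 2 ≤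
      (1 / M) ^ N + (badU M t N).indicator (fun _ => 4 * ‖f‖ ^ 2) x := by
    intro x hx
    have e : ‖g ((x + t : ℝ) : AddCircle (1 : ℝ)) - g x‖ =
        |f (h ((x + t : ℝ) : AddCircle (1 : ℝ))) - f (h x)| := by
      show ‖((f (h ((x + t : ℝ) : AddCircle (1 : ℝ))) : ℝ) : ℂ) - ((f (h x) : ℝ) : ℂ)‖ = _
      rw [← Complex.ofReal_sub, Complex.norm_real, Real.norm_eq_abs]
    rw [e]
    by_cases hb : x ∈ badU M t N
    · rw [Set.indicator_of_mem hb]
      have a1 := f.norm_coe_le_norm (h ((x + t : ℝ) : AddCircle (1 : ℝ)))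
      have a2 := f.norm_coe_le_norm (h x)
      rw [Real.norm_eq_abs] at a1 a2
      have a3 := abs_sub (f (h ((x + t : ℝ) : AddCircle (1 : ℝ)))) (f (h x))
      have a4 : |f (h ((x + t : ℝ) : AddCircle (1 : ℝ))) - f (h x)| ^ 2 ≤ (2 * ‖f‖) ^ 2 :=
        pow_le_pow_left₀ (abs_nonneg _) (by linarith) 2
      have a5 : 0 ≤ (1 / M) ^ N := by positivity
      nlinarith
    · rw [Set.indicator_of_notMem hb, add_zero]
      have a1 := HH_tail hM hη0 hη1 x t ht1 N (not_badU hM t N ht0 ht1 x hx.1 hx.2 hb)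
      have a2 : HH M η x ≤ HH M η (x + t) := (HH_strict hM hη0 hη1).monotone (by linarith)
      have a3 : dist (h ((x + t : ℝ) : AddCircle (1 : ℝ))) (h x) < τ N := by
        rw [hh, hh]
        refine (dist_coe_le _ _).trans_lt ?_
        rw [abs_of_nonneg (by linarith)]
        linarith [hη N, hτ0 N]
      have a4 := hτ N a3
      rw [Real.dist_eq] at a4
      have a5 := abs_nonneg (f (h ((x + t : ℝ) : AddCircle (1 : ℝ))) - f (h x))
      nlinarith
  have hint : Integrable ((badU M t N).indicator (fun _ => 4 * ‖f‖ ^ 2)) volume :=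
    (integrable_indicator_iff hms).2 (integrableOn_const hfin)
  have hcg : Continuous fun x : ℝ => ‖g ((x + t : ℝ) : AddCircle (1 : ℝ)) - g x‖ ^ 2 := by
    have hc := AddCircle.continuous_mk' (1 : ℝ)
    have h1 : Continuous fun x : ℝ => g (x : AddCircle (1 : ℝ)) := g.continuous.comp hc
    exact ((h1.comp (continuous_add_const t)).sub h1).norm.pow 2
  refine (intervalIntegral.integral_mono_on zero_le_one (hcg.intervalIntegrable _ _)
    (intervalIntegrable_const.add hint.intervalIntegrable) hpt).trans ?_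
  rw [intervalIntegral.integral_add intervalIntegrable_const hint.intervalIntegrable,
    intervalIntegral.integral_const, intervalIntegral.integral_of_le zero_le_one]
  have b1 : ∫ x in Set.Ioc (0 : ℝ) 1, (badU M t N).indicator (fun _ => 4 * ‖f‖ ^ 2) x ≤
      ∫ x, (badU M t N).indicator (fun _ => 4 * ‖f‖ ^ 2) x :=
    setIntegral_le_integral hint (Eventually.of_forall fun x =>
      Set.indicator_nonneg (fun _ _ => by positivity) x)
  rw [integral_indicator_const (μ := volume) _ hms, smul_eq_mul] at b1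
  have b2 : volume.real (badU M t N) ≤ (N + 1) * (3 * (2 * (2 / M) ^ N)) :=
    ENNReal.toReal_le_of_le_ofReal (by positivity) hvol
  have b3 : (N : ℝ) + 1 ≤ 2 ^ N := by exact_mod_cast Nat.lt_two_pow_self
  have b4 : (4 / M) ^ N = 2 ^ N * (2 / M) ^ N := by
    rw [← mul_pow]
    congr 1
    ring
  have b5 : (1 / M) ^ N ≤ (4 / M) ^ N := by gcongr; norm_num
  have b6 : volume.real (badU M t N) ≤ 6 * (4 / M) ^ N := by
    have : 0 ≤ (2 / M) ^ N := by positivity
    rw [b4]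
    nlinarith
  have b7 := mul_le_mul_of_nonneg_right b6 (by positivity : 0 ≤ 4 * ‖f‖ ^ 2)
  simp only [sub_zero, smul_eq_mul, one_mul]
  linarith

theorem main (f : C(AddCircle (1 : ℝ), ℝ)) (p : ℝ) (hp : 1 < p) :
    ∃ h : AddCircle (1 : ℝ) ≃ₜ AddCircle (1 : ℝ),
      (∃ C α : ℝ, 0 < α ∧ α ≤ 1 ∧ ∀ x y, dist (h x) (h y) ≤ C * dist x y ^ α) ∧
      Summable fun n : ℤ => ‖fourierCoeff (fun x => ((f (h x) : ℝ) : ℂ)) n‖ ^ p := by
  rcases le_total p 2 with hp2 | hp2
  · exact main_le_two f p hp hp2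
  obtain ⟨h, h1, h2⟩ := main_le_two f 2 (by norm_num) le_rfl
  refine ⟨h, h1, Summable.of_norm_bounded_eventually h2 ?_⟩
  filter_upwards [h2.tendsto_cofinite_zero.eventually (gt_mem_nhds one_pos)] with n hn
  rw [Real.norm_of_nonneg (by positivity)]
  have h3 := norm_nonneg (fourierCoeff (fun x => ((f (h x) : ℝ) : ℂ)) n)
  apply Real.rpow_le_rpow_of_exponent_ge' h3 _ (by norm_num) hp2
  rw [Real.rpow_two] at hn
  nlinarith

end Pool.Agent.H380Z.Hol
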